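import Mathlib

/-! # Squares of graphs of girth five: pendant vertices

For the theta graph with paths of lengths `2`, `3`, `3` and `k ≥ 1` pendant vertices attached to a
vertex of degree three the square is globally rigid in three-space, but five copies of the graph
do not contain six edge-disjoint spanning trees. -/

set_option autoImplicit false

namespace Pool.Agent.Results.MP_f1f412_co.PendantVertices

open Finset

/-- three-dimensional Euclidean space -/
abbrev E3 := EuclideanSpace ℝ (Fin 3)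

/-- the `3 |V|` coordinates of `p` are algebraically independent over `ℚ` -/
def IsGeneric {V : Type} (p : V → E3) : Prop :=
  AlgebraicIndependent ℚ (fun x : V × Fin 3 => p x.1 x.2)

/-- the framework `(H, p)` is globally rigid -/
def FrameworkGloballyRigid {V : Type} (H : SimpleGraph V) (p : V → E3) : Prop :=
  ∀ q : V → E3, (∀ u v, H.Adj u v → ‖q u - q v‖ = ‖p u - p v‖) →
    ∀ u v, ‖q u - q v‖ = ‖p u - p v‖

/-- `H` is (generically) globally rigid in `ℝ³`: there are generic frameworks, and all of them are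
globally rigid -/
def GloballyRigid {V : Type} (H : SimpleGraph V) : Prop :=
  (∃ p : V → E3, IsGeneric p) ∧ ∀ p : V → E3, IsGeneric p → FrameworkGloballyRigid H p

/-- the square of a graph: different vertices at distance at most two are adjacent -/
def square {V : Type} (G : SimpleGraph V) : SimpleGraph V where
  Adj u v := u ≠ v ∧ (G.Adj u v ∨ ∃ w, G.Adj u w ∧ G.Adj w v)
  symm := ⟨by
    rintro u v ⟨h, h1 | ⟨w, h1, h2⟩⟩
    · exact ⟨h.symm, Or.inl h1.symm⟩
    · exact ⟨h.symm, Or.inr ⟨w, h2.symm, h1.symm⟩⟩⟩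
  loopless := ⟨fun u h => h.1 rfl⟩

/-- the edges of the multigraph `k G`: `k` copies of every edge of `G` -/
def copies {V : Type} (G : SimpleGraph V) (k : ℕ) : Set (Sym2 V × Fin k) :=
  {e | e.1 ∈ G.edgeSet}

/-- a set of copies of edges is the edge set of a spanning tree: it contains at most one copy of
every edge, and these edges are those of a tree on all vertices -/
def IsSpanningTree {V : Type} {k : ℕ} (T : Set (Sym2 V × Fin k)) : Prop :=
  Set.InjOn Prod.fst T ∧ (SimpleGraph.fromEdgeSet (Prod.fst '' T)).IsTree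

/-- the edge set `E` contains `m` pairwise disjoint spanning trees -/
def TreeConnected {V : Type} {k : ℕ} (m : ℕ) (E : Set (Sym2 V × Fin k)) : Prop :=
  ∃ T : Fin m → Set (Sym2 V × Fin k), (∀ i, T i ⊆ E ∧ IsSpanningTree (T i)) ∧
    Pairwise fun i j => Disjoint (T i) (T j)

/-- `k G` is highly `m`-tree-connected: deleting any single edge leaves an `m`-tree-connected
multigraph -/
def HighlyTreeConnected {V : Type} (G : SimpleGraph V) (k m : ℕ) : Prop :=
  ∀ e ∈ copies G k, TreeConnected m (copies G k \ {e})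

/-- `G` has no cycle of length `3` or `4` -/
def NoShortCycle {V : Type} (G : SimpleGraph V) : Prop :=
  ∀ (v : V) (w : G.Walk v v), w.IsCycle → w.length ≠ 3 ∧ w.length ≠ 4

/-- `H` is `4`-connected: deleting at most three vertices leaves a connected graph -/
def FourConnected {V : Type} (H : SimpleGraph V) : Prop :=
  ∀ S : Finset V, S.card ≤ 3 → (H.induce {v | v ∉ S}).Connected

/-- the theta graph with two vertices `0` and `2` joined by the three paths `0 1 2`, `0 4 3 2` and
`0 5 6 2` -/
def thetaAdj (a b : Fin 7) : Bool :=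
  ((a, b) ∈ ([(0, 1), (1, 2), (2, 3), (3, 4), (4, 0), (0, 5), (5, 6), (6, 2)] :
    List (Fin 7 × Fin 7))) ||
  ((b, a) ∈ ([(0, 1), (1, 2), (2, 3), (3, 4), (4, 0), (0, 5), (5, 6), (6, 2)] :
    List (Fin 7 × Fin 7)))

theorem theta_symm : ∀ a b : Fin 7, thetaAdj a b = true → thetaAdj b a = true := by decide

theorem theta_irrefl : ∀ a : Fin 7, thetaAdj a a = true → False := by decide

theorem theta_three : ∀ a b c : Fin 7, thetaAdj a b = true → thetaAdj b c = true →
    thetaAdj c a = true → False := by decide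

theorem theta_four : ∀ a b c d : Fin 7, a ≠ c → b ≠ d → thetaAdj a b = true →
    thetaAdj b c = true → thetaAdj c d = true → thetaAdj d a = true → False := by decide

/-- the adjacency of the theta graph with `k` pendant vertices at the vertex `0` -/
def adj (k : ℕ) : Fin 7 ⊕ Fin k → Fin 7 ⊕ Fin k → Prop
  | Sum.inl a, Sum.inl b => thetaAdj a b = true
  | Sum.inl a, Sum.inr _ => a = 0
  | Sum.inr _, Sum.inl b => b = 0
  | Sum.inr _, Sum.inr _ => False

/-- the theta graph with `k` pendant vertices at the vertex `0` -/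
def graph (k : ℕ) : SimpleGraph (Fin 7 ⊕ Fin k) where
  Adj := adj k
  symm := ⟨by
    rintro (a | a) (b | b) h
    · exact theta_symm a b h
    · exact h
    · exact h
    · exact h⟩
  loopless := ⟨by
    rintro (a | a) h
    · exact theta_irrefl a h
    · exact h⟩

/-! ### No short cycles -/

theorem no_triangle (k : ℕ) (a b c : Fin 7 ⊕ Fin k) (h1 : (graph k).Adj a b)
    (h2 : (graph k).Adj b c) (h3 : (graph k).Adj c a) : False := by
  rcases a with a | a <;> rcases b with b | b <;> rcases c with c | c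
  · exact theta_three a b c h1 h2 h3
  · have e1 : b = 0 := h2
    have e2 : a = 0 := h3
    subst e1 e2
    exact (graph k).loopless.irrefl _ h1
  · have e1 : a = 0 := h1
    have e2 : c = 0 := h2
    subst e1 e2
    exact (graph k).loopless.irrefl _ h3
  · exact h2
  · have e1 : b = 0 := h1
    have e2 : c = 0 := h3
    subst e1 e2
    exact (graph k).loopless.irrefl _ h2
  · exact h3
  · exact h1
  · exact h1

theorem no_square (k : ℕ) (a b c d : Fin 7 ⊕ Fin k) (hac : a ≠ c) (hbd : b ≠ d)
    (h1 : (graph k).Adj a b) (h2 : (graph k).Adj b c) (h3 : (graph k).Adj c d)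
    (h4 : (graph k).Adj d a) : False := by
  have key : ∀ (x : Fin k) (u : Fin 7 ⊕ Fin k), (graph k).Adj (Sum.inr x) u → u = Sum.inl 0 := by
    rintro x (u | u) h
    · have : u = 0 := h
      rw [this]
    · exact h.elim
  rcases a with a | a
  · rcases b with b | b
    · rcases c with c | c
      · rcases d with d | d
        · have hac' : a ≠ c := fun h => hac (by rw [h])
          have hbd' : b ≠ d := fun h => hbd (by rw [h])
          exact theta_four a b c d hac' hbd' h1 h2 h3 h4
        · exact hac ((key _ _ h4).trans (key _ _ h3.symm).symm)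
      · exact hbd ((key _ _ h2.symm).trans (key _ _ h3).symm)
    · exact hac ((key _ _ h1.symm).trans (key _ _ h2).symm)
  · exact hbd ((key _ _ h1).trans (key _ _ h4.symm).symm)

theorem noShortCycle (k : ℕ) : NoShortCycle (graph k) := by
  intro v w hw
  constructor
  · intro h
    match w, h with
    | .cons h1 (.cons h2 (.cons h3 .nil)), _ => exact no_triangle k _ _ _ h1 h2 h3
  · intro h
    match w, h, hw with
    | .cons h1 (.cons h2 (.cons h3 (.cons h4 .nil))), _, hw =>
      have hn := hw.support_nodup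
      simp at hn
      refine no_square k _ _ _ _ ?_ ?_ h1 h2 h3 h4
      · intro h
        simp_all
      · intro h
        simp_all

/-! ### Five copies do not contain six disjoint spanning trees -/

theorem leaf_adj (k : ℕ) (x : Fin k) (u : Fin 7 ⊕ Fin k) (h : (graph k).Adj (Sum.inr x) u) :
    u = Sum.inl 0 := by
  rcases u with u | u
  · have : u = 0 := h
    rw [this]
  · exact h.elim

theorem not_treeConnected (k : ℕ) (hk : 1 ≤ k) (E : Set (Sym2 (Fin 7 ⊕ Fin k) × Fin 5))
    (hE : E ⊆ copies (graph k) 5) : ¬ TreeConnected 6 E := by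
  rintro ⟨T, hT, hdis⟩
  obtain ⟨x⟩ : Nonempty (Fin k) := ⟨⟨0, hk⟩⟩
  have key : ∀ i : Fin 6, ∃ c : Fin 5, (s(Sum.inr x, Sum.inl 0), c) ∈ T i := by
    intro i
    obtain ⟨hsub, _, htree⟩ := hT i
    obtain ⟨w⟩ := htree.1.preconnected (Sum.inr x) (Sum.inl 0)
    cases w with
    | cons h p =>
      rename_i v
      rw [SimpleGraph.fromEdgeSet_adj] at h
      obtain ⟨⟨⟨e, c⟩, he, hev⟩, hne⟩ := h
      have hev' : e = s(Sum.inr x, v) := hev
      subst hev'
      have h1 : (s(Sum.inr x, v) : Sym2 (Fin 7 ⊕ Fin k)) ∈ (graph k).edgeSet := hE (hsub he)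
      rw [SimpleGraph.mem_edgeSet] at h1
      have h2 := leaf_adj k x v h1
      subst h2
      exact ⟨c, he⟩
  choose c hc using key
  obtain ⟨i, j, hij, hcij⟩ := Fintype.exists_ne_map_eq_of_card_lt c (by simp)
  have h1 := hdis hij
  have h2 := hc i
  have h3 := hc j
  rw [hcij] at h2
  exact Set.disjoint_left.1 h1 h2 h3

theorem not_highly (k : ℕ) (hk : 1 ≤ k) : ¬ HighlyTreeConnected (graph k) 5 6 := by
  intro h
  have h1 : (graph k).Adj (Sum.inl 0) (Sum.inl 1) := by
    show thetaAdj 0 1 = true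
    decide
  have h2 := h (s(Sum.inl 0, Sum.inl 1), 0) (by
    show s(Sum.inl 0, Sum.inl 1) ∈ (graph k).edgeSet
    exact h1)
  exact not_treeConnected k hk _ Set.sdiff_subset h2

/-! ### Generic frameworks -/

theorem det_ne_zero {V : Type} (p : V → E3) (hp : IsGeneric p) (a : Fin 4 → V)
    (ha : Function.Injective a) :
    (Matrix.of fun (i k : Fin 3) => p (a i.succ) k - p (a 0) k).det ≠ 0 := by
  classical
  intro h0
  set D : MvPolynomial (V × Fin 3) ℚ := (Matrix.of fun (i k : Fin 3) =>
    (MvPolynomial.X (a i.succ, k) - MvPolynomial.X (a 0, k) : MvPolynomial (V × Fin 3) ℚ)).det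
    with hD
  have h1 : MvPolynomial.aeval (fun x : V × Fin 3 => p x.1 x.2) D = 0 := by
    rw [hD, AlgHom.map_det, ← h0]
    congr 1
    ext i k
    simp [AlgHom.mapMatrix_apply, Matrix.map_apply]
  have h2 : D = 0 := by
    have := (algebraicIndependent_iff.1 hp) D h1
    exact this
  have h3 := congrArg (MvPolynomial.eval (fun x : V × Fin 3 =>
    if x.1 = a x.2.succ then (1 : ℚ) else 0)) h2
  rw [map_zero, hD, RingHom.map_det] at h3
  have h4 : (MvPolynomial.eval (fun x : V × Fin 3 =>
      if x.1 = a x.2.succ then (1 : ℚ) else 0)).mapMatrix (Matrix.of fun (i k : Fin 3) =>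
      (MvPolynomial.X (a i.succ, k) - MvPolynomial.X (a 0, k) : MvPolynomial (V × Fin 3) ℚ)) =
      (1 : Matrix (Fin 3) (Fin 3) ℚ) := by
    ext i k
    have e1 : a 0 ≠ a k.succ := fun h => absurd (ha h) (Fin.succ_ne_zero k).symm
    by_cases hik : i = k
    · subst hik
      simp [e1]
    · have e2 : a i.succ ≠ a k.succ := fun h => hik (Fin.succ_injective _ (ha h))
      simp [e1, e2, Matrix.one_apply_ne hik]
  rw [h4, Matrix.det_one] at h3
  exact one_ne_zero h3

theorem exists_weights {V : Type} (p : V → E3) (hp : IsGeneric p) (a : Fin 4 → V)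
    (ha : Function.Injective a) (u : V) :
    ∃ l : Fin 4 → ℝ, ∑ i, l i = 1 ∧ p u = ∑ i, l i • p (a i) := by
  set M : Matrix (Fin 3) (Fin 3) ℝ := Matrix.of fun (i k : Fin 3) => p (a i.succ) k - p (a 0) k
    with hM
  have hdet : M.det ≠ 0 := det_ne_zero p hp a ha
  set t : Fin 3 → ℝ := fun k => p u k - p (a 0) k with ht
  set c : Fin 3 → ℝ := Matrix.vecMul t M⁻¹ with hc
  have h1 : Matrix.vecMul c M = t := by
    rw [hc, Matrix.vecMul_vecMul, Matrix.nonsing_inv_mul _ (isUnit_iff_ne_zero.2 hdet),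
      Matrix.vecMul_one]
  refine ⟨Fin.cons (1 - ∑ i, c i) c, ?_, ?_⟩
  · rw [Fin.sum_univ_succ]
    simp
  · ext k
    have h2 := congrFun h1 k
    simp only [Matrix.vecMul, dotProduct, hM, Matrix.of_apply, ht] at h2
    rw [Fin.sum_univ_succ]
    simp only [Fin.cons_zero, Fin.cons_succ, PiLp.add_apply, PiLp.smul_apply, smul_eq_mul]
    rw [Fin.sum_univ_three] at h2 ⊢
    rw [Fin.sum_univ_three]
    simp only [PiLp.add_apply, PiLp.smul_apply, smul_eq_mul]
    linarith

theorem norm_identity (x : E3) (b : Fin 4 → E3) (l : Fin 4 → ℝ) (hl : ∑ i, l i = 1) :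
    ‖x - ∑ i, l i • b i‖ ^ 2 = ∑ i, l i * ‖x - b i‖ ^ 2 -
      (∑ i, ∑ j, l i * l j * ‖b i - b j‖ ^ 2) / 2 := by
  have h1 : x - ∑ i, l i • b i = ∑ i, l i • (x - b i) := by
    simp only [smul_sub, Finset.sum_sub_distrib]
    rw [← Finset.sum_smul, hl, one_smul]
  rw [h1, ← real_inner_self_eq_norm_sq, sum_inner]
  simp only [inner_sum, inner_smul_left, inner_smul_right]
  have h2 : ∀ i j : Fin 4, inner ℝ (x - b i) (x - b j) =
      (‖x - b i‖ ^ 2 + ‖x - b j‖ ^ 2 - ‖b i - b j‖ ^ 2) / 2 := by
    intro i j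
    have e : b i - b j = (x - b j) - (x - b i) := by abel
    have h3 := norm_sub_sq_real (x - b j) (x - b i)
    rw [← e, real_inner_comm] at h3
    linarith
  simp only [h2]
  rw [Fin.sum_univ_four] at hl
  simp only [Fin.sum_univ_four, sub_self, norm_zero, norm_sub_rev (b 1) (b 0),
    norm_sub_rev (b 2) (b 0), norm_sub_rev (b 3) (b 0), norm_sub_rev (b 2) (b 1),
    norm_sub_rev (b 3) (b 1), norm_sub_rev (b 3) (b 2)]
  simp only [conj_trivial]
  linear_combination (l 0 * ‖x - b 0‖ ^ 2 + l 1 * ‖x - b 1‖ ^ 2 + l 2 * ‖x - b 2‖ ^ 2 +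
    l 3 * ‖x - b 3‖ ^ 2) * hl

theorem extend {V : Type} (p q : V → E3) (hp : IsGeneric p) (a : Fin 4 → V)
    (ha : Function.Injective a) (v u : V)
    (h1 : ∀ i j, ‖q (a i) - q (a j)‖ = ‖p (a i) - p (a j)‖)
    (h2 : ∀ i, ‖q v - q (a i)‖ = ‖p v - p (a i)‖)
    (h3 : ∀ i, ‖q u - q (a i)‖ = ‖p u - p (a i)‖) : ‖q v - q u‖ = ‖p v - p u‖ := by
  obtain ⟨l, hl, hu⟩ := exists_weights p hp a ha u
  have e1 : q u = ∑ i, l i • q (a i) := by
    have h4 := norm_identity (q u) (fun i => q (a i)) l hl
    have h5 := norm_identity (p u) (fun i => p (a i)) l hl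
    simp only [h1, h3] at h4
    rw [← h5, ← hu, sub_self, norm_zero] at h4
    have h6 : ‖q u - ∑ i, l i • q (a i)‖ = 0 := by
      have : ‖q u - ∑ i, l i • q (a i)‖ ^ 2 = 0 := by rw [h4]; norm_num
      exact pow_eq_zero_iff (two_ne_zero) |>.1 this
    exact sub_eq_zero.1 (norm_eq_zero.1 h6)
  have h4 := norm_identity (q v) (fun i => q (a i)) l hl
  have h5 := norm_identity (p v) (fun i => p (a i)) l hl
  simp only [h1, h2] at h4
  rw [← h5, ← hu, ← e1] at h4
  exact (pow_left_inj₀ (norm_nonneg _) (norm_nonneg _) two_ne_zero).1 h4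

/-! ### The square of the graph -/

/-- adjacency in the square of the theta graph -/
def sqAdj (a b : Fin 7) : Bool :=
  decide (a ≠ b) && (thetaAdj a b || (List.finRange 7).any fun w => thetaAdj a w && thetaAdj w b)

theorem square_core (k : ℕ) (a b : Fin 7) (h : sqAdj a b = true) :
    (square (graph k)).Adj (Sum.inl a) (Sum.inl b) := by
  simp only [sqAdj, Bool.and_eq_true, Bool.or_eq_true, decide_eq_true_eq, List.any_eq_true] at h
  obtain ⟨h1, h2⟩ := h
  refine ⟨fun h => h1 (Sum.inl_injective h), ?_⟩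
  rcases h2 with h2 | ⟨w, _, h2, h3⟩
  · exact Or.inl h2
  · exact Or.inr ⟨Sum.inl w, h2, h3⟩

theorem square_leaf (k : ℕ) (x : Fin k) (b : Fin 7) (h : b = 0 ∨ thetaAdj 0 b = true) :
    (square (graph k)).Adj (Sum.inr x) (Sum.inl b) := by
  refine ⟨Sum.inr_ne_inl, ?_⟩
  rcases h with h | h
  · subst h
    exact Or.inl rfl
  · exact Or.inr ⟨Sum.inl 0, rfl, h⟩

theorem square_leaves (k : ℕ) (x y : Fin k) (h : x ≠ y) :
    (square (graph k)).Adj (Sum.inr x) (Sum.inr y) :=
  ⟨fun e => h (Sum.inr_injective e), Or.inr ⟨Sum.inl 0, rfl, rfl⟩⟩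

theorem core_pairs : ∀ a b : Fin 7, a.val < 5 → b.val < 5 → a ≠ b → sqAdj a b = true := by decide

theorem frameworkRigid (k : ℕ) (p : Fin 7 ⊕ Fin k → E3) (hp : IsGeneric p) :
    FrameworkGloballyRigid (square (graph k)) p := by
  intro q hq
  have hself : ∀ u, ‖q u - q u‖ = ‖p u - p u‖ := fun u => by rw [sub_self, sub_self]
  have hsymm : ∀ u v, ‖q u - q v‖ = ‖p u - p v‖ → ‖q v - q u‖ = ‖p v - p u‖ := by
    intro u v h
    rw [norm_sub_rev, h, norm_sub_rev]
  -- the five-cycle
  have h5 : ∀ a b : Fin 7, a.val < 5 → b.val < 5 →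
      ‖q (Sum.inl a) - q (Sum.inl b)‖ = ‖p (Sum.inl a) - p (Sum.inl b)‖ := by
    intro a b ha hb
    by_cases hab : a = b
    · rw [hab]; exact hself _
    · exact hq _ _ (square_core k a b (core_pairs a b ha hb hab))
  -- the vertex `5`
  have h6 : ∀ b : Fin 7, b.val < 5 →
      ‖q (Sum.inl 5) - q (Sum.inl b)‖ = ‖p (Sum.inl 5) - p (Sum.inl b)‖ := by
    intro b hb
    apply extend p q hp (fun i => Sum.inl (![0, 1, 4, 2] i))
    · have h0 : ∀ i j : Fin 4, (![0, 1, 4, 2] : Fin 4 → Fin 7) i = ![0, 1, 4, 2] j → i = j := by decide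
      intro i j h
      exact h0 i j (Sum.inl_injective h)
    · intro i j
      apply h5
      · revert i; decide
      · revert j; decide
    · intro i
      apply hq
      apply square_core
      revert i; decide
    · intro i
      apply h5 _ _ hb
      revert i; decide
  -- the vertex `6`
  have h7 : ∀ b : Fin 7, b.val < 5 →
      ‖q (Sum.inl 6) - q (Sum.inl b)‖ = ‖p (Sum.inl 6) - p (Sum.inl b)‖ := by
    intro b hb
    apply extend p q hp (fun i => Sum.inl (![2, 0, 1, 3] i))
    · have h0 : ∀ i j : Fin 4, (![2, 0, 1, 3] : Fin 4 → Fin 7) i = ![2, 0, 1, 3] j → i = j := by decide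
      intro i j h
      exact h0 i j (Sum.inl_injective h)
    · intro i j
      apply h5
      · revert i; decide
      · revert j; decide
    · intro i
      apply hq
      apply square_core
      revert i; decide
    · intro i
      apply h5 _ _ hb
      revert i; decide
  have h56 : ‖q (Sum.inl 5) - q (Sum.inl 6)‖ = ‖p (Sum.inl 5) - p (Sum.inl 6)‖ :=
    hq _ _ (square_core k 5 6 (by decide))
  -- all vertices of the theta graph
  have hcore : ∀ a b : Fin 7,
      ‖q (Sum.inl a) - q (Sum.inl b)‖ = ‖p (Sum.inl a) - p (Sum.inl b)‖ := by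
    intro a b
    have hcase : ∀ c : Fin 7, c.val < 5 ∨ c = 5 ∨ c = 6 := by decide
    rcases hcase a with ha | rfl | rfl <;> rcases hcase b with hb | rfl | rfl
    · exact h5 a b ha hb
    · exact hsymm _ _ (h6 a ha)
    · exact hsymm _ _ (h7 a ha)
    · exact h6 b hb
    · exact hself _
    · exact h56
    · exact h7 b hb
    · exact hsymm _ _ h56
    · exact hself _
  -- the pendant vertices
  have hleaf : ∀ (x : Fin k) (b : Fin 7),
      ‖q (Sum.inr x) - q (Sum.inl b)‖ = ‖p (Sum.inr x) - p (Sum.inl b)‖ := by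
    intro x b
    apply extend p q hp (fun i => Sum.inl (![0, 1, 4, 5] i))
    · have h0 : ∀ i j : Fin 4, (![0, 1, 4, 5] : Fin 4 → Fin 7) i = ![0, 1, 4, 5] j → i = j := by decide
      intro i j h
      exact h0 i j (Sum.inl_injective h)
    · intro i j
      exact hcore _ _
    · intro i
      apply hq
      apply square_leaf
      revert i; decide
    · intro i
      exact hcore _ _
  intro u v
  rcases u with u | u <;> rcases v with v | v
  · exact hcore u v
  · exact hsymm _ _ (hleaf v u)
  · exact hleaf u v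
  · by_cases huv : u = v
    · rw [huv]; exact hself _
    · exact hq _ _ (square_leaves k u v huv)

/-! ### Existence of generic configurations -/

theorem exists_indep (ι : Type) [Finite ι] : ∃ x : ι → ℝ, AlgebraicIndependent ℚ x := by
  classical
  obtain ⟨κ, x, hx⟩ := exists_isTranscendenceBasis' ℚ ℝ
  have hinf : Infinite κ := by
    by_contra hcon
    have hfin : Finite κ := not_infinite_iff_finite.1 hcon
    have h2 : Cardinal.mk κ ≤ Cardinal.aleph0 := (Cardinal.lt_aleph0_of_finite κ).le
    have halg : Algebra.IsAlgebraic (Algebra.adjoin ℚ (Set.range x)) ℝ := hx.isAlgebraic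
    have h3 := Algebra.IsAlgebraic.cardinalMk_le_max (Algebra.adjoin ℚ (Set.range x)) ℝ
    have h4 : Cardinal.mk (Algebra.adjoin ℚ (Set.range x)) ≤ Cardinal.aleph0 := by
      have h5 : Cardinal.mk (MvPolynomial κ ℚ) =
          Cardinal.mk (Algebra.adjoin ℚ (Set.range x)) :=
        Cardinal.mk_congr hx.1.aevalEquiv.toEquiv
      rw [← h5]
      refine MvPolynomial.cardinalMk_le_max.trans ?_
      simp [h2]
    rw [Cardinal.mk_real] at h3
    exact absurd (h3.trans (max_le h4 le_rfl)) (not_le.2 Cardinal.aleph0_lt_continuum)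
  obtain ⟨n, ⟨e⟩⟩ := Finite.exists_equiv_fin ι
  obtain ⟨f⟩ : Nonempty (Fin n ↪ κ) := by
    exact ⟨(Fin.valEmbedding).trans (Infinite.natEmbedding κ)⟩
  exact ⟨x ∘ (f ∘ e), hx.1.comp _ (f.injective.comp e.injective)⟩

theorem exists_generic (k : ℕ) : ∃ p : Fin 7 ⊕ Fin k → E3, IsGeneric p := by
  obtain ⟨x, hx⟩ := exists_indep ((Fin 7 ⊕ Fin k) × Fin 3)
  exact ⟨fun v => WithLp.toLp 2 (fun i => x (v, i)), hx⟩

theorem connected (k : ℕ) : (graph k).Connected := by
  have h0 : ∀ a : Fin 7, (graph k).Reachable (Sum.inl 0) (Sum.inl a) := by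
    have step : ∀ a b : Fin 7, thetaAdj a b = true →
        (graph k).Reachable (Sum.inl a) (Sum.inl b) := fun a b h =>
      SimpleGraph.Adj.reachable (G := graph k) (show thetaAdj a b = true from h)
    have e1 := step 0 1 (by decide)
    have e2 := e1.trans (step 1 2 (by decide))
    have e3 := e2.trans (step 2 3 (by decide))
    have e4 := e3.trans (step 3 4 (by decide))
    have e5 := step 0 5 (by decide)
    have e6 := e5.trans (step 5 6 (by decide))
    intro a
    fin_cases a
    · exact SimpleGraph.Reachable.refl _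
    · exact e1
    · exact e2
    · exact e3
    · exact e4
    · exact e5
    · exact e6
  have h1 : ∀ u, (graph k).Reachable (Sum.inl 0) u := by
    rintro (a | x)
    · exact h0 a
    · exact SimpleGraph.Adj.reachable (G := graph k) (show (0 : Fin 7) = 0 from rfl)
  have : Nonempty (Fin 7 ⊕ Fin k) := ⟨Sum.inl 0⟩
  exact ⟨fun u v => (h1 u).symm.trans (h1 v)⟩

theorem not_complete (k : ℕ) : square (graph k) ≠ ⊤ := by
  intro h
  have h1 : (square (graph k)).Adj (Sum.inl 3) (Sum.inl 5) := by
    rw [h, SimpleGraph.top_adj]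
    intro h
    exact absurd (Sum.inl_injective h) (by decide)
  obtain ⟨_, h2 | ⟨w, h2, h3⟩⟩ := h1
  · exact absurd (show thetaAdj 3 5 = true from h2) (by decide)
  · rcases w with w | w
    · have e : ∀ w : Fin 7, thetaAdj 3 w = true → thetaAdj w 5 = true → False := by decide
      exact e w h2 h3
    · exact absurd (show (3 : Fin 7) = 0 from h2) (by decide)

/-- **The conjecture fails for graphs with pendant vertices.** -/
theorem result :
    (∀ k : ℕ, 1 ≤ k → Nat.card (Fin 7 ⊕ Fin k) = 7 + k ∧ (graph k).Connected ∧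
      NoShortCycle (graph k) ∧ square (graph k) ≠ ⊤ ∧ GloballyRigid (square (graph k)) ∧
      ¬ HighlyTreeConnected (graph k) 5 6) ∧
    ¬ ∀ (V : Type) [Fintype V] (G : SimpleGraph V), 5 ≤ Fintype.card V → NoShortCycle G →
      (GloballyRigid (square G) ↔ FourConnected (square G) ∧ HighlyTreeConnected G 5 6) := by
  have h : ∀ k : ℕ, 1 ≤ k → Nat.card (Fin 7 ⊕ Fin k) = 7 + k ∧ (graph k).Connected ∧
      NoShortCycle (graph k) ∧ square (graph k) ≠ ⊤ ∧ GloballyRigid (square (graph k)) ∧
      ¬ HighlyTreeConnected (graph k) 5 6 := by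
    intro k hk
    exact ⟨by simp, connected k, noShortCycle k, not_complete k,
      ⟨exists_generic k, frameworkRigid k⟩, not_highly k hk⟩
  refine ⟨h, fun hall => ?_⟩
  obtain ⟨_, _, h1, _, h2, h3⟩ := h 1 le_rfl
  exact h3 ((hall _ (graph 1) (by simp) h1).1 h2).2

end Pool.Agent.Results.MP_f1f412_co.PendantVertices
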